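import Mathlib

namespace Pool.Agent.Results.MP_0e3340_nt.Infinite

/-- The triple `(x, y, z)` of integers is multiplicatively dependent. -/
def MulDep (x y z : ℤ) : Prop :=
  ∃ k₁ k₂ k₃ : ℤ, ¬ (k₁ = 0 ∧ k₂ = 0 ∧ k₃ = 0) ∧
    (x : ℚ) ^ k₁ * (y : ℚ) ^ k₂ * (z : ℚ) ^ k₃ = 1

/-- Admissible triples: pairwise distinct integers larger than one, not containing both `2` and
`8`, such that the triple and its shifts by one and by two are multiplicatively dependent. -/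
def Admissible (a b c : ℤ) : Prop :=
  (a ≠ b ∧ a ≠ c ∧ b ≠ c) ∧ (1 < a ∧ 1 < b ∧ 1 < c) ∧
  ¬ (({2, 8} : Set ℤ) ⊆ {a, b, c}) ∧
  MulDep a b c ∧ MulDep (a + 1) (b + 1) (c + 1) ∧ MulDep (a + 2) (b + 2) (c + 2)

/-- The member of the family belonging to the exponent `n + 4`. -/
def fam (n : ℕ) : ℤ × ℤ × ℤ :=
  (2, 2 ^ (n + 4) - 2, (2 ^ (n + 4) - 1) ^ 2 - 1)

theorem fam_spec (n : ℕ) :
    (fam n).1 < (fam n).2.1 ∧ (fam n).2.1 < (fam n).2.2 ∧
      Admissible (fam n).1 (fam n).2.1 (fam n).2.2 := by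
  have h16 : (16 : ℤ) ≤ 2 ^ (n + 4) := by
    have : (1 : ℤ) ≤ 2 ^ n := one_le_pow₀ (by norm_num)
    calc (16 : ℤ) = 1 * 2 ^ 4 := by norm_num
      _ ≤ 2 ^ n * 2 ^ 4 := by gcongr
      _ = 2 ^ (n + 4) := by rw [pow_add]
  simp only [fam]
  set N : ℤ := 2 ^ (n + 4) with hN
  have h1 : (2 : ℤ) < N - 2 := by linarith
  have h2 : N - 2 < (N - 1) ^ 2 - 1 := by nlinarith
  have hNq : ((N : ℤ) : ℚ) = 2 ^ (n + 4) := by rw [hN]; push_cast; rfl
  have h16q : (16 : ℚ) ≤ (N : ℚ) := by exact_mod_cast h16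
  refine ⟨h1, h2, ⟨by omega, by omega, by omega⟩, ⟨by norm_num, by linarith, by linarith⟩, ?_,
    ?_, ?_, ?_⟩
  · intro h
    have h8 : (8 : ℤ) ∈ ({2, N - 2, (N - 1) ^ 2 - 1} : Set ℤ) := h (by simp)
    simp only [Set.mem_insert_iff, Set.mem_singleton_iff] at h8
    rcases h8 with h8 | h8 | h8
    · omega
    · omega
    · nlinarith
  · refine ⟨(n : ℤ) + 4, 1, -1, by omega, ?_⟩
    have hc : ((((N - 1) ^ 2 - 1 : ℤ)) : ℚ) = (N : ℚ) * ((N : ℚ) - 2) := by push_cast; ring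
    have h5 : ((2 : ℤ) : ℚ) ^ ((n : ℤ) + 4) = (N : ℚ) := by
      rw [hNq]
      have : ((n : ℤ) + 4) = ((n + 4 : ℕ) : ℤ) := by push_cast; ring
      rw [this, zpow_natCast]
      norm_num
    rw [h5, hc, zpow_one, zpow_neg_one]
    push_cast
    have h6 : (N : ℚ) * ((N : ℚ) - 2) ≠ 0 := by
      apply ne_of_gt
      apply mul_pos <;> linarith
    exact mul_inv_cancel₀ h6
  · refine ⟨0, 2, -1, by omega, ?_⟩
    have hb : (((N - 2 + 1 : ℤ)) : ℚ) = (N : ℚ) - 1 := by push_cast; ring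
    have hc : ((((N - 1) ^ 2 - 1 + 1 : ℤ)) : ℚ) = ((N : ℚ) - 1) ^ 2 := by push_cast; ring
    rw [hb, hc, zpow_zero, zpow_neg_one, one_mul]
    have h6 : ((N : ℚ) - 1) ^ 2 ≠ 0 := by
      apply ne_of_gt
      apply pow_pos
      linarith
    have h7 : ((N : ℚ) - 1) ^ (2 : ℤ) = ((N : ℚ) - 1) ^ 2 := by
      exact_mod_cast zpow_natCast ((N : ℚ) - 1) 2
    rw [h7]
    exact mul_inv_cancel₀ h6
  · refine ⟨(n : ℤ) + 4, -2, 0, by omega, ?_⟩
    have ha : (((2 + 2 : ℤ)) : ℚ) = 2 ^ 2 := by norm_num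
    have hb : (((N - 2 + 2 : ℤ)) : ℚ) = (2 : ℚ) ^ (n + 4) := by
      rw [← hNq]; push_cast; ring
    rw [ha, hb, zpow_zero, mul_one]
    have : ((n : ℤ) + 4) = ((n + 4 : ℕ) : ℤ) := by push_cast; ring
    rw [this, zpow_natCast, ← pow_mul, zpow_neg]
    have h7 : ((2 : ℚ) ^ (n + 4)) ^ (2 : ℤ) = ((2 : ℚ) ^ (n + 4)) ^ 2 := by
      exact_mod_cast zpow_natCast ((2 : ℚ) ^ (n + 4)) 2
    rw [h7, ← pow_mul, mul_comm 2 (n + 4)]
    exact mul_inv_cancel₀ (by positivity)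

/-- There are infinitely many admissible triples `a < b < c`. -/
theorem result :
    {t : ℤ × ℤ × ℤ | t.1 < t.2.1 ∧ t.2.1 < t.2.2 ∧ Admissible t.1 t.2.1 t.2.2}.Infinite := by
  apply Set.infinite_of_injective_forall_mem (f := fam)
  · intro m n h
    have h1 : (2 : ℤ) ^ (m + 4) - 2 = 2 ^ (n + 4) - 2 := by
      have := congrArg (fun t : ℤ × ℤ × ℤ => t.2.1) h
      simpa [fam] using this
    have h2 : (2 : ℤ) ^ (m + 4) = 2 ^ (n + 4) := by linarith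
    have h3 : m + 4 = n + 4 := by
      have h4 : (2 : ℕ) ^ (m + 4) = 2 ^ (n + 4) := by exact_mod_cast h2
      exact Nat.pow_right_injective le_rfl h4
    omega
  · intro n
    exact fam_spec n

end Pool.Agent.Results.MP_0e3340_nt.Infinite
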